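import Pool.Agent.Q274.BKL.Stm

/-!
# Project BKL: `S_F2`
-/

set_option autoImplicit false
set_option linter.unusedVariables false

open Filter
open scoped Topology PeriodPair ComplexConjugate

namespace Pool.Agent.Q92.BKL

open Pool.Agent.Q274.BKL
open H667R3 Pool.Agent.TH936.CM
open Pool.Agent.Y698 (RR aR bR al bl tA tB LD cX cY cXY_add cXY_neg cXY_int RR_ext bR_coe aR_coe
  al_ne bl_ne al_mul_bl aR_mul_bR al_re s7_re)

section alg

/-- a power of `bl` is `1` modulo `N` -/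
theorem exists_pow (N : ℕ) (hN : Odd N) : ∃ k, 1 ≤ k ∧ ∃ c : RR, bR ^ k = 1 + N * c := by
  have hN0 : N ≠ 0 := by
    rintro rfl
    simp at hN
  have : NeZero N := ⟨hN0⟩
  obtain ⟨x, y, hxy, hf⟩ := Finite.exists_ne_map_eq_of_infinite
    (fun i : ℕ => (((cX (bR ^ i) : ℤ) : ZMod N), ((cY (bR ^ i) : ℤ) : ZMod N)))
  wlog h : x < y generalizing x y
  · exact this y x hxy.symm hf.symm (lt_of_le_of_ne (not_lt.1 h) hxy.symm)
  obtain ⟨m, rfl⟩ := Nat.exists_eq_add_of_lt h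
  rw [Prod.mk.injEq, ZMod.intCast_eq_intCast_iff_dvd_sub, ZMod.intCast_eq_intCast_iff_dvd_sub] at hf
  obtain ⟨⟨s, hs⟩, t, ht⟩ := hf
  have hd : bR ^ (x + m + 1) - bR ^ x = N * ((s : RR) + t * aR) := by
    apply Subtype.ext
    have e1 := Pool.Agent.Y698.co (bR ^ (x + m + 1))
    have e2 := Pool.Agent.Y698.co (bR ^ x)
    have e3 : (cX (bR ^ (x + m + 1)) : ℂ) - cX (bR ^ x) = N * s := by exact_mod_cast hs
    have e4 : (cY (bR ^ (x + m + 1)) : ℂ) - cY (bR ^ x) = N * t := by exact_mod_cast ht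
    rw [AddSubgroupClass.coe_sub, e1, e2]
    push_cast
    rw [aR_coe]
    linear_combination e3 + al * e4
  have hcop : IsCoprime ((2 : ℤ) ^ x) (N : ℤ) := by
    apply IsCoprime.pow_left
    rw [Int.isCoprime_iff_gcd_eq_one]
    exact_mod_cast (Nat.coprime_two_left.2 hN)
  obtain ⟨a, b, hab⟩ := hcop
  refine ⟨m + 1, by omega, a * (aR ^ x * ((s : RR) + t * aR)) + b * (bR ^ (m + 1) - 1), ?_⟩
  have h2 : (2 : RR) ^ x * (bR ^ (m + 1) - 1) = N * (aR ^ x * ((s : RR) + t * aR)) := by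
    rw [← aR_mul_bR, mul_pow]
    have : bR ^ (x + m + 1) = bR ^ x * bR ^ (m + 1) := by rw [← pow_add]; rfl
    rw [this] at hd
    linear_combination aR ^ x * hd
  have h3 : (a : RR) * 2 ^ x + b * N = 1 := by exact_mod_cast congrArg (Int.cast : ℤ → RR) hab
  linear_combination (-(bR ^ (m + 1) - 1)) * h3 + a * h2

end alg

section

variable {L : PeriodPair} {Ω q : ℂ} {Γ : Type} [LinearOrderedCommGroupWithZero Γ]
  {v : Valuation ℂ Γ}

theorem conj_bl : (starRingEnd ℂ) bl = al := by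
  apply Complex.ext
  · rw [Complex.conj_re]
    unfold bl
    rw [Complex.sub_re, Complex.one_re, al_re]
    norm_num
  · rw [Complex.conj_im]
    unfold bl
    rw [Complex.sub_im, Complex.one_im]
    ring

theorem Oz.mul (hD : LD L Ω) {z : ℂ} (hz : Oz L z) : Oz L (bl * z) := by
  obtain ⟨hz1, N, hN, hz2⟩ := hz
  refine ⟨fun h => hz1 ?_, N, hN, ?_⟩
  · obtain ⟨m, rfl⟩ := hN
    have h1 : ((2 : RR) : ℂ) * z ∈ L.lattice := by
      have h2 := hD.lat.mul aR (bl * z) h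
      rw [aR_coe, ← mul_assoc, al_mul_bl] at h2
      rwa [Pool.Agent.Y698.two_coe]
    have h2 := hD.lat.mul (-(m : RR)) _ h1
    have h3 := add_mem hz2 h2
    rw [Pool.Agent.Y698.two_coe] at h3
    push_cast at h3
    have e : (2 * (m : ℂ) + 1) * z + -(m : ℂ) * (2 * z) = z := by ring
    rwa [e] at h3
  · have h2 := hD.lat.mul bR _ hz2
    rw [bR_coe] at h2
    have e : (N : ℂ) * (bl * z) = bl * (N * z) := by ring
    rwa [e]

theorem Oz.mul_pow (hD : LD L Ω) {z : ℂ} (hz : Oz L z) (j : ℕ) : Oz L (bl ^ j * z) := by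
  induction j with
  | zero => simpa using hz
  | succ j ih =>
    rw [pow_succ', mul_assoc]
    exact Oz.mul hD ih

theorem v_bl (ha : v al < 1) : v bl = 1 := by
  unfold bl
  exact Valuation.map_one_sub_of_lt v ha

theorem v_two (ha : v al < 1) : v 2 < 1 := by
  rw [← al_mul_bl, map_mul, v_bl ha, mul_one]
  exact ha

theorem v_blinv (ha : v al < 1) (n : ℕ) : v (bl⁻¹ ^ n) = 1 := by
  rw [map_pow, map_inv₀, v_bl ha, inv_one, one_pow]

theorem lam_le (ha : v al < 1) {z : ℂ} (h1 : v (xw L z) = 1 ∧ v (yw L z) ≤ 1)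
    (hx : xw L (tB Ω) = al * bl⁻¹ ^ 2) (hy : yw L (tB Ω) = -bl⁻¹ ^ 3) :
    v (lw L z (tB Ω)) ≤ 1 := by
  unfold lw
  rw [hx, hy, map_div₀]
  have h2 : v (xw L z - al * bl⁻¹ ^ 2) = 1 := by
    rw [Valuation.map_sub_eq_of_lt_left, h1.1]
    rw [h1.1, map_mul, v_blinv ha, mul_one]
    exact ha
  have h3 : v (yw L z - -bl⁻¹ ^ 3) ≤ 1 := by
    refine (v.map_sub _ _).trans (max_le h1.2 ?_)
    rw [Valuation.map_neg, v_blinv ha]
  rw [h2, div_one]
  exact h3

theorem Sw_add (hD : Dat L Ω q) {z l : ℂ} (hz : z ∉ L.lattice) (hl : l ∈ L.lattice) :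
    Sw L q ((starRingEnd ℂ) (z + l)) (z + l) = Sw L q ((starRingEnd ℂ) z) z := by
  unfold Sw
  rw [zeta_add_coe L hz hl, hD.per l hl, map_add]
  ring

theorem xw_add {z l : ℂ} (hl : l ∈ L.lattice) : xw L (z + l) = xw L z := by
  unfold xw
  rw [PeriodPair.weierstrassP_add_coe L z ⟨l, hl⟩]

theorem kw_add (hD : Dat L Ω q) {z l : ℂ} (hz : z ∉ L.lattice) (hl : l ∈ L.lattice) :
    kw L q ((starRingEnd ℂ) (z + l)) (z + l) = kw L q ((starRingEnd ℂ) z) z := by
  unfold kw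
  rw [Sw_add hD hz hl, xw_add hl]

end

theorem t_F2 : S_F2 := by
  intro hZB hBL hF1 L Ω q hD Γ _ v ha z hz
  have hB := hBL hZB L Ω q hD.ld
  have hbl := v_bl ha
  have h2 := v_two ha
  -- the step
  have step : ∀ z : ℂ, Oz L z → v (Sw L q ((starRingEnd ℂ) (bl * z)) (bl * z)) ≤
      max (v 2 * v (Sw L q ((starRingEnd ℂ) z) z)) 1 := by
    intro z hz
    obtain ⟨b1, -, -, -, b5, b6⟩ := hB ((starRingEnd ℂ) z) z (Oz.mul hD.ld hz).ne
    have hl := lam_le ha (hF1 L Ω hD.ld Γ v ha z hz) b5 b6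
    have e1 : (starRingEnd ℂ) (bl * z) = al * (starRingEnd ℂ) z := by
      rw [map_mul, conj_bl]
    rw [← e1] at b1
    have e2 : v (Sw L q ((starRingEnd ℂ) (bl * z)) (bl * z)) =
        v (bl * Sw L q ((starRingEnd ℂ) (bl * z)) (bl * z)) := by
      rw [v.map_mul bl, hbl, one_mul]
    rw [e2, b1]
    refine (v.map_sub _ _).trans (max_le ?_ ?_)
    · refine (v.map_add _ _).trans ?_
      rw [map_mul]
      exact max_le_max le_rfl hl
    · have := v_blinv ha 1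
      rw [pow_one] at this
      rw [this]
      exact le_max_right _ _
  have iter : ∀ (z : ℂ) (j : ℕ), Oz L z → v (Sw L q ((starRingEnd ℂ) (bl ^ j * z)) (bl ^ j * z)) ≤
      max (v 2 ^ j * v (Sw L q ((starRingEnd ℂ) z) z)) 1 := by
    intro z j hz
    induction j with
    | zero => simp
    | succ j ih =>
      have e : bl ^ (j + 1) * z = bl * (bl ^ j * z) := by ring
      rw [e]
      refine (step _ (Oz.mul_pow hD.ld hz j)).trans (max_le ?_ (le_max_right _ _))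
      have h3 := mul_le_mul' (le_refl (v 2)) ih
      refine h3.trans ?_
      rcases le_total (v 2 ^ j * v (Sw L q ((starRingEnd ℂ) z) z)) 1 with h4 | h4
      · rw [max_eq_right h4, mul_one]
        exact h2.le.trans (le_max_right _ _)
      · rw [max_eq_left h4, pow_succ', mul_assoc]
        exact le_max_left _ _
  -- the return
  have ret : ∀ z : ℂ, Oz L z → ∃ k : ℕ, 1 ≤ k ∧ ∃ l ∈ L.lattice, bl ^ k * z = z + l := by
    intro z hz
    obtain ⟨-, N, hN, hNz⟩ := hz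
    obtain ⟨k, hk, c, hc⟩ := exists_pow N hN
    refine ⟨k, hk, c * (N * z), hD.ld.lat.mul c _ hNz, ?_⟩
    have h3 := congrArg (Subtype.val : RR → ℂ) hc
    push_cast at h3
    rw [bR_coe] at h3
    rw [h3]
    ring
  have S1 : ∀ z : ℂ, Oz L z → v (Sw L q ((starRingEnd ℂ) z) z) ≤ 1 := by
    intro z hz
    obtain ⟨k, hk, l, hl, he⟩ := ret z hz
    have h3 := iter z k hz
    rw [he, Sw_add hD hz.ne hl] at h3
    by_contra h4
    rw [not_le] at h4
    rcases le_max_iff.1 h3 with h5 | h5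
    · have h6 : v 2 ^ k < 1 := pow_lt_one₀ zero_le h2 (by omega)
      have h7 : v (Sw L q ((starRingEnd ℂ) z) z) ≠ 0 := (lt_of_le_of_lt zero_le h4).ne'
      have h8 := mul_lt_mul_of_pos_right h6 (zero_lt_iff.2 h7)
      rw [one_mul] at h8
      exact absurd h5 (not_le.2 h8)
    · exact absurd h5 (not_le.2 h4)
  refine ⟨S1 z hz, ?_⟩
  obtain ⟨k, hk, l, hl, he⟩ := ret z hz
  obtain ⟨j, rfl⟩ := Nat.exists_eq_add_of_le' hk
  have hz' := Oz.mul_pow hD.ld hz j
  have hS' := S1 _ hz'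
  obtain ⟨-, -, -, b4, b5, b6⟩ := hB ((starRingEnd ℂ) (bl ^ j * z)) (bl ^ j * z)
    (Oz.mul hD.ld hz').ne
  have hlam := lam_le ha (hF1 L Ω hD.ld Γ v ha _ hz') b5 b6
  have e1 : (starRingEnd ℂ) (bl * (bl ^ j * z)) = al * (starRingEnd ℂ) (bl ^ j * z) := by
    rw [map_mul, conj_bl]
  have e2 : bl * (bl ^ j * z) = z + l := by rw [← he]; ring
  rw [← e1, e2, kw_add hD hz.ne hl] at b4
  rw [b4, map_mul, v_blinv ha, one_mul]
  have hv2 := h2.le
  have m1 : v (2 * Sw L q ((starRingEnd ℂ) (bl ^ j * z)) (bl ^ j * z) ^ 2) ≤ 1 := by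
    rw [map_mul, map_pow]
    exact mul_le_one' hv2 (pow_le_one₀ zero_le hS')
  have m2 : v (2 * Sw L q ((starRingEnd ℂ) (bl ^ j * z)) (bl ^ j * z) *
      lw L (bl ^ j * z) (tB Ω)) ≤ 1 := by
    rw [map_mul, map_mul]
    exact mul_le_one' (mul_le_one' hv2 hS') hlam
  have m3 : v (al ^ 2 * bl⁻¹) ≤ 1 := by
    have := v_blinv ha 1
    rw [pow_one] at this
    rw [map_mul, this, mul_one, map_pow]
    exact pow_le_one₀ zero_le ha.le
  refine (v.map_add _ _).trans (max_le ?_ m3)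
  refine (v.map_sub _ _).trans (max_le ?_ hlam)
  refine (v.map_sub _ _).trans (max_le ?_ hS')
  exact (v.map_add _ _).trans (max_le m1 m2)

end Pool.Agent.Q92.BKL
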