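import Pool.Agent.Q92.BKL.F2

/-!
# Project BKL: `S_IRS`
-/

set_option autoImplicit false
set_option linter.unusedVariables false

open Filter
open scoped Topology PeriodPair ComplexConjugate

namespace Pool.Agent.Q92.BKL

open Pool.Agent.Q274.BKL
open H667R3 Pool.Agent.TH936.CM
open Pool.Agent.Y698 (RR aR bR al bl tA tB LD al_ne bl_ne al_mul_bl)

theorem ev_notMem (L : PeriodPair) {c : ℂ} (hc : c ≠ 0) :
    ∀ᶠ w in 𝓝[≠] (0 : ℂ), c * w ∉ L.lattice := by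
  have h1 : Tendsto (fun w : ℂ => c * w) (𝓝[≠] 0) (𝓝 0) := by
    have h2 : Tendsto (fun w : ℂ => c * w) (𝓝 0) (𝓝 (c * 0)) :=
      tendsto_const_nhds.mul tendsto_id
    rw [mul_zero] at h2
    exact h2.mono_left nhdsWithin_le_nhds
  filter_upwards [h1 (L.compl_lattice_sdiff_singleton_mem_nhds 0), self_mem_nhdsWithin]
    with w hw hw0 hw1
  exact hw ⟨hw1, mul_ne_zero hc hw0⟩

theorem mer_zeta (L : PeriodPair) : MeromorphicAt (zeta L) 0 := by
  have h1 : AnalyticAt ℂ (sigma L) 0 := (differentiable_sigma L).analyticAt 0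
  have h2 : MeromorphicAt (fun z => deriv (sigma L) z / sigma L z) 0 :=
    h1.deriv.meromorphicAt.div h1.meromorphicAt
  refine h2.congr ?_
  filter_upwards [ev_notMem L one_ne_zero] with w hw
  rw [one_mul] at hw
  rw [deriv_sigma L hw, mul_div_cancel_right₀ _ (sigma_ne_zero L hw)]

theorem mer_Sw (L : PeriodPair) (q u : ℂ) : MeromorphicAt (Sw L q u) 0 := by
  unfold Sw
  exact (((mer_zeta L).sub ((MeromorphicAt.const _ _).mul (MeromorphicAt.id 0))).sub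
    (MeromorphicAt.const _ _)).add (MeromorphicAt.const _ _)

theorem lim_x (L : PeriodPair) :
    Tendsto (fun w => xw L w * w ^ (2 : ℤ)) (𝓝[≠] 0) (𝓝 1) := by
  have h0 : Tendsto (fun w : ℂ => 1 + (℘[L - (0 : ℂ)] w + 1 / 4) * w ^ 2) (𝓝[≠] 0)
      (𝓝 (1 + (℘[L - (0 : ℂ)] 0 + 1 / 4) * 0 ^ 2)) := by
    refine Tendsto.mono_left ?_ nhdsWithin_le_nhds
    have h1 := (L.analyticAt_weierstrassPExcept 0).continuousAt
    exact tendsto_const_nhds.add ((h1.tendsto.add tendsto_const_nhds).mul (tendsto_id.pow 2))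
  have e : (1 : ℂ) + (℘[L - (0 : ℂ)] 0 + 1 / 4) * 0 ^ 2 = 1 := by ring
  rw [e] at h0
  refine h0.congr' ?_
  filter_upwards [self_mem_nhdsWithin] with w hw
  have hw' : w ≠ 0 := hw
  have h2 := L.weierstrassPExcept_def 0 w
  rw [ZeroMemClass.coe_zero] at h2
  rw [h2]
  unfold xw
  rw [zpow_ofNat]
  field_simp
  ring

theorem lim_y (L : PeriodPair) :
    Tendsto (fun w => yw L w * w ^ (3 : ℤ)) (𝓝[≠] 0) (𝓝 (-1)) := by
  have h0 : Tendsto (fun w : ℂ => (-2 + ℘'[L - (0 : ℂ)] w * w ^ 3 -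
      (xw L w * w ^ (2 : ℤ)) * w) / 2) (𝓝[≠] 0)
      (𝓝 ((-2 + ℘'[L - (0 : ℂ)] 0 * 0 ^ 3 - 1 * 0) / 2)) := by
    have h1 := (L.analyticAt_derivWeierstrassPExcept 0).continuousAt
    have h3 : Tendsto (fun w : ℂ => ℘'[L - (0 : ℂ)] w) (𝓝[≠] 0) (𝓝 (℘'[L - (0 : ℂ)] 0)) :=
      h1.tendsto.mono_left nhdsWithin_le_nhds
    have h4 : Tendsto (fun w : ℂ => w) (𝓝[≠] 0) (𝓝 0) := tendsto_id.mono_left nhdsWithin_le_nhds
    exact ((tendsto_const_nhds.add (h3.mul (h4.pow 3))).sub ((lim_x L).mul h4)).div_const 2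
  have e : (-2 + ℘'[L - (0 : ℂ)] 0 * 0 ^ 3 - 1 * 0) / 2 = (-1 : ℂ) := by ring
  rw [e] at h0
  refine h0.congr' ?_
  filter_upwards [self_mem_nhdsWithin] with w hw
  have hw' : w ≠ 0 := hw
  have h2 := L.derivWeierstrassPExcept_def 0 w
  rw [ZeroMemClass.coe_zero] at h2
  rw [h2]
  unfold yw
  rw [zpow_ofNat, zpow_ofNat]
  field_simp
  ring

theorem t_IRS : S_IRS := by
  intro hZB hBL hI1 hI2 hI3 hI5 hXY L Ω q hD Γ _ v ha
  have hbl := v_bl ha
  have hv2 := v_two ha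
  have hB := hBL hZB L Ω q hD.ld
  obtain ⟨hU, hXY'⟩ := hXY hI1 hI2 hI3 L Ω hD.ld
  obtain ⟨hx, hy, -⟩ := hXY' Γ v
  obtain ⟨c1, c2, c3, c4, c5⟩ := hI1 Γ v (Tw L) hU
  -- constants
  have hxt : xw L (tB Ω) = al * bl⁻¹ ^ 2 := by
    have hz : ∃ z : ℂ, bl * z ∉ L.lattice := (ev_notMem L bl_ne).exists
    obtain ⟨z, hz⟩ := hz
    exact (hB 0 z hz).2.2.2.2.1
  have hyt : yw L (tB Ω) = -bl⁻¹ ^ 3 := by
    have hz : ∃ z : ℂ, bl * z ∉ L.lattice := (ev_notMem L bl_ne).exists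
    obtain ⟨z, hz⟩ := hz
    exact (hB 0 z hz).2.2.2.2.2
  -- the inverse of `x - c`
  have hinv : ∀ c : ℂ, v c ≤ 1 → IR v (Tw L) (fun w => (xw L w + -c)⁻¹) := by
    intro c hc
    have h1 : IR v (Tw L) (fun w => xw L w + -c) :=
      c3 _ _ hx (c1 (-c) (by rwa [Valuation.map_neg]))
    refine (hI3 hI1 hI2 Γ v (Tw L) _ hU).1 2 1 h1 ?_ (map_one v)
    have h2 : Tendsto (fun w : ℂ => xw L w * w ^ (2 : ℤ) + -c * w ^ (2 : ℤ)) (𝓝[≠] 0)
        (𝓝 (1 + -c * 0 ^ (2 : ℤ))) := by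
      refine (lim_x L).add ?_
      refine Tendsto.mono_left ?_ nhdsWithin_le_nhds
      simp only [zpow_ofNat]
      exact tendsto_const_nhds.mul (tendsto_id.pow 2)
    have e : (1 : ℂ) + -c * 0 ^ (2 : ℤ) = 1 := by
      rw [zpow_ofNat]
      ring
    rw [e] at h2
    refine h2.congr fun w => ?_
    ring
  have hlam : ∀ z : ℂ, v (xw L z) ≤ 1 → v (yw L z) ≤ 1 →
      IR v (Tw L) (fun w => lw L z w) := by
    intro z h1 h2
    have h3 : IR v (Tw L) (fun w => yw L w + -(yw L z)) :=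
      c3 _ _ hy (c1 _ (by rwa [Valuation.map_neg]))
    have h4 := c4 _ _ h3 (hinv _ h1)
    refine c5 _ _ (Eventually.of_forall fun w => ?_) h4
    show (yw L w + -(yw L z)) * (xw L w + -(xw L z))⁻¹ = (yw L z - yw L w) / (xw L z - xw L w)
    rw [← neg_div_neg_eq, neg_sub, neg_sub, div_eq_mul_inv, sub_eq_add_neg, sub_eq_add_neg]
  have hlam' : ∀ z : ℂ, v (xw L z) ≤ 1 → v (yw L z) ≤ 1 →
      IR v (Tw L) (fun w => lw L w z) := by
    intro z h1 h2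
    refine c5 _ _ (Eventually.of_forall fun w => ?_) (hlam z h1 h2)
    show lw L z w = lw L w z
    unfold lw
    rw [← neg_div_neg_eq, neg_sub, neg_sub]
  have hl : IR v (Tw L) (fun w => lw L w (tB Ω)) := by
    apply hlam'
    · rw [hxt, map_mul, v_blinv ha, mul_one]
      exact ha.le
    · rw [hyt, Valuation.map_neg, v_blinv ha]
  -- integral constants
  have hvb : ∀ n : ℕ, v (bl⁻¹ ^ n) ≤ 1 := fun n => (v_blinv ha n).le
  have hv3 : v (2 * bl - 3) ≤ 1 := by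
    have e : (2 * bl - 3 : ℂ) = 2 * (bl - 1) - 1 := by ring
    rw [e]
    refine (v.map_sub _ _).trans (max_le ?_ (map_one v).le)
    rw [map_mul]
    refine mul_le_one' hv2.le ((v.map_sub _ _).trans (max_le hbl.le (map_one v).le))
  have hv1 : v (2 * bl - 1) ≤ 1 := by
    refine (v.map_sub _ _).trans (max_le ?_ (map_one v).le)
    rw [map_mul]
    exact mul_le_one' hv2.le hbl.le
  have hmul : ∀ x y : ℂ, v x ≤ 1 → v y ≤ 1 → v (x * y) ≤ 1 := fun x y h1 h2 => by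
    rw [map_mul]
    exact mul_le_one' h1 h2
  have hcm : ∀ (c : ℂ) (f : ℂ → ℂ), v c ≤ 1 → IR v (Tw L) f → IR v (Tw L) (fun w => c * f w) :=
    fun c f h1 h2 => c4 _ _ (c1 c h1) h2
  have hneg1 : v (-1 : ℂ) ≤ 1 := by rw [Valuation.map_neg, map_one]
  have hsub : ∀ f g : ℂ → ℂ, IR v (Tw L) f → IR v (Tw L) g → IR v (Tw L) (fun w => f w - g w) := by
    intro f g h1 h2
    refine c5 _ _ (Eventually.of_forall fun w => ?_) (c3 _ _ h1 (hcm (-1) _ hneg1 h2))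
    ring
  have hpow : ∀ (f : ℂ → ℂ) (n : ℕ), IR v (Tw L) f → IR v (Tw L) (fun w => f w ^ n) := by
    intro f n h1
    induction n with
    | zero => exact c5 _ _ (Eventually.of_forall fun w => (pow_zero _).symm) (c1 1 (map_one v).le)
    | succ n ih => exact c5 _ _ (Eventually.of_forall fun w => (pow_succ _ _).symm) (c4 _ _ ih h1)
  -- `x (bl w)`
  have hX : IR v (Tw L) (fun w => xw L (bl * w)) := by
    have h1 : IR v (Tw L) (fun w => bl⁻¹ ^ 2 * (lw L w (tB Ω) ^ 2 + lw L w (tB Ω) +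
        (2 * bl - 3) * bl⁻¹ ^ 2)) :=
      hcm _ _ (hvb 2) (c3 _ _ (c3 _ _ (hpow _ 2 hl) hl) (c1 _ (hmul _ _ hv3 (hvb 2))))
    refine c5 _ _ ?_ h1
    filter_upwards [ev_notMem L bl_ne] with w hw
    exact (hB 0 w hw).2.1.symm
  have hY : IR v (Tw L) (fun w => yw L (bl * w)) := by
    have h1 : IR v (Tw L) (fun w => bl⁻¹ ^ 3 * (2 * lw L w (tB Ω) + 1) * xw L w -
        bl⁻¹ ^ 3 * lw L w (tB Ω) ^ 3 -
        bl⁻¹ ^ 4 * (2 * bl - 1) * (lw L w (tB Ω) ^ 2 + lw L w (tB Ω)) +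
        al * bl⁻¹ ^ 5 * lw L w (tB Ω) + al * bl⁻¹ ^ 6 * (2 * bl - 3)) := by
      refine c3 _ _ (c3 _ _ (hsub _ _ (hsub _ _ (c4 _ _ (hcm _ _ (hvb 3)
        (c3 _ _ (hcm 2 _ hv2.le hl) (c1 1 (map_one v).le))) hx)
        (hcm _ _ (hvb 3) (hpow _ 3 hl))) (hcm _ _ (hmul _ _ (hvb 4) hv1)
        (c3 _ _ (hpow _ 2 hl) hl))) (hcm _ _ (hmul _ _ ha.le (hvb 5)) hl))
        (c1 _ (hmul _ _ (hmul _ _ ha.le (hvb 6)) hv3))
    refine c5 _ _ ?_ h1
    filter_upwards [ev_notMem L bl_ne] with w hw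
    exact (hB 0 w hw).2.2.1.symm
  -- the parameter at `bl w`
  have hTb : IR v (Tw L) (fun w => Tw L (bl * w)) := by
    have h1 : IR v (Tw L) (fun w => (yw L (bl * w))⁻¹) := by
      refine (hI3 hI1 hI2 Γ v (Tw L) _ hU).1 3 (-bl⁻¹ ^ 3) hY ?_ ?_
      · have h2 : Tendsto (fun w : ℂ => bl * w) (𝓝[≠] 0) (𝓝[≠] 0) := by
          rw [tendsto_nhdsWithin_iff]
          refine ⟨?_, ?_⟩
          · have h3 : Tendsto (fun w : ℂ => bl * w) (𝓝 0) (𝓝 (bl * 0)) :=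
              tendsto_const_nhds.mul tendsto_id
            rw [mul_zero] at h3
            exact h3.mono_left nhdsWithin_le_nhds
          · filter_upwards [self_mem_nhdsWithin] with w hw
            exact mul_ne_zero bl_ne hw
        have h3 := ((lim_y L).comp h2).mul_const (bl⁻¹ ^ 3)
        have e : -1 * bl⁻¹ ^ 3 = -bl⁻¹ ^ 3 := by ring
        rw [e] at h3
        refine h3.congr fun w => ?_
        simp only [Function.comp_apply, zpow_ofNat]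
        have hb := bl_ne
        field_simp
      · rw [Valuation.map_neg, v_blinv ha]
    refine c5 _ _ (Eventually.of_forall fun w => ?_) (hcm (-1) _ hneg1 (c4 _ _ hX h1))
    show -1 * (xw L (bl * w) * (yw L (bl * w))⁻¹) = Tw L (bl * w)
    unfold Tw
    rw [div_eq_mul_inv]
    ring
  have hI := hI5 hI1 hI2 hI3 Γ v (Tw L)
  have hS : IR v (Tw L) (Sw L q 0) := by
    refine (hI (Sw L q 0) bl hU hbl hTb).2 bl (-2) (mer_Sw L q 0) hbl
      (by rwa [Valuation.map_neg]) ?_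
    have hb1 : v (bl⁻¹) ≤ 1 := by simpa using hvb 1
    refine c5 _ _ ?_ (hsub _ _ hl (c1 _ hb1))
    filter_upwards [ev_notMem L bl_ne] with w hw
    have h1 := (hB 0 w hw).1
    rw [mul_zero] at h1
    rw [h1]
    ring
  refine ⟨hS, ?_, fun z _ h1 h2 => hlam z h1 h2⟩
  have hk : MeromorphicAt (kw L q 0) 0 := by
    have h1 : MeromorphicAt (fun z => (Sw L q 0 z ^ 2 - Sw L q 0 z - xw L z + 1) / 2) 0 :=
      ((((hS.mer.pow 2).sub hS.mer).sub hx.mer).add (MeromorphicAt.const _ _)).div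
        (MeromorphicAt.const _ _)
    exact h1
  refine (hI (kw L q 0) bl hU hbl hTb).2 1 0 hk (map_one v) (by rw [map_zero]; exact zero_lt_one) ?_
  have h1 : IR v (Tw L) (fun w => bl⁻¹ ^ 2 * (2 * Sw L q 0 w ^ 2 + 2 * Sw L q 0 w *
      lw L w (tB Ω) - Sw L q 0 w - lw L w (tB Ω) + al ^ 2 * bl⁻¹)) := by
    have hb1 : v (al ^ 2 * bl⁻¹) ≤ 1 := by
      refine hmul _ _ ?_ (by simpa using hvb 1)
      rw [map_pow]
      exact pow_le_one₀ zero_le ha.le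
    exact hcm _ _ (hvb 2) (c3 _ _ (hsub _ _ (hsub _ _ (c3 _ _ (hcm 2 _ hv2.le (hpow _ 2 hS))
      (c4 _ _ (hcm 2 _ hv2.le hS) hl)) hS) hl) (c1 _ hb1))
  refine c5 _ _ ?_ h1
  filter_upwards [ev_notMem L bl_ne] with w hw
  have h2 := (hB 0 w hw).2.2.2.1
  rw [mul_zero] at h2
  rw [h2]
  ring

end Pool.Agent.Q92.BKL
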